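import Pool.Agent.Helper5_OPEN.Defs
import Pool.Agent.Helper1_Gen.PolyGeom

/-!
Insertion of a vertex into a cyclic sequence of vertices.
-/

namespace Pool.Agent.H5O.H97

open MeasureTheory Complex Filter Topology Pool.Agent.H16Iso Pool.Agent.H1Gen

/-- insert the vertex `z` between the vertices number `j` and `j + 1` -/
def ins {n : ℕ} (q : Fin (n + 3) → ℂ) (j : Fin (n + 3)) (z : ℂ) : Fin (n + 1 + 3) → ℂ :=
  Fin.insertNth (α := fun _ => ℂ) j.succ z q

/-! ### indices -/

theorem val_succAbove {n : ℕ} (j k : Fin (n + 3)) :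
    ((j.succ.succAbove k : Fin (n + 1 + 3)) : ℕ) = if (k : ℕ) ≤ j then (k : ℕ) else k + 1 := by
  unfold Fin.succAbove
  by_cases h : k.castSucc < j.succ
  · have h' : (k : ℕ) ≤ j := by
      have := Fin.lt_def.1 h
      simp only [Fin.val_castSucc, Fin.val_succ] at this
      omega
    rw [if_pos h, if_pos h']
    rfl
  · have h' : ¬ (k : ℕ) ≤ j := by
      have h2 := h
      rw [Fin.lt_def] at h2
      simp only [Fin.val_castSucc, Fin.val_succ] at h2
      omega
    rw [if_neg h, if_neg h']
    rfl

theorem val_add_one' {N : ℕ} (x : Fin (N + 3)) :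
    ((x + 1 : Fin (N + 3)) : ℕ) = if (x : ℕ) = N + 2 then 0 else (x : ℕ) + 1 := by
  have h := Fin.val_add_one (n := N + 2) x
  rw [h]
  have e : (x = Fin.last (N + 2)) ↔ (x : ℕ) = N + 2 := by
    rw [Fin.ext_iff]; rfl
  simp only [e]

theorem succAbove_next {n : ℕ} (j k : Fin (n + 3)) (h : k ≠ j) :
    (j.succ.succAbove k : Fin (n + 1 + 3)) + 1 = j.succ.succAbove (k + 1) := by
  apply Fin.ext
  have h' : (k : ℕ) ≠ j := fun e => h (Fin.ext e)
  have hk := k.isLt
  have hj := j.isLt
  rw [val_add_one', val_succAbove, val_succAbove, val_add_one']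
  split_ifs <;> omega

theorem succAbove_self_next {n : ℕ} (j : Fin (n + 3)) :
    (j.succ.succAbove j : Fin (n + 1 + 3)) + 1 = j.succ := by
  apply Fin.ext
  have hj := j.isLt
  have e : ((j.succ : Fin (n + 1 + 3)) : ℕ) = j + 1 := rfl
  rw [val_add_one', val_succAbove, e]
  split_ifs <;> omega

theorem succ_next {n : ℕ} (j : Fin (n + 3)) :
    (j.succ : Fin (n + 1 + 3)) + 1 = j.succ.succAbove (j + 1) := by
  apply Fin.ext
  have hj := j.isLt
  have e : ((j.succ : Fin (n + 1 + 3)) : ℕ) = j + 1 := rfl
  rw [val_add_one', val_succAbove, val_add_one', e]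
  split_ifs <;> omega

theorem succAbove_lt {n : ℕ} {j a b : Fin (n + 3)} (h : (j.succ.succAbove a : Fin (n + 1 + 3))
    < j.succ.succAbove b) : a < b := by
  rw [Fin.lt_def, val_succAbove, val_succAbove] at h
  rw [Fin.lt_def]
  split_ifs at h <;> omega

/-! ### values of the new sequence -/

variable {n : ℕ} {q : Fin (n + 3) → ℂ} {j : Fin (n + 3)} {z : ℂ}

theorem ins_self : ins q j z j.succ = z := by
  unfold ins
  exact Fin.insertNth_apply_same (α := fun _ => ℂ) j.succ z q

theorem ins_old (k : Fin (n + 3)) : ins q j z (j.succ.succAbove k) = q k := by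
  unfold ins
  exact Fin.insertNth_apply_succAbove (α := fun _ => ℂ) j.succ z q k

theorem ins_cases {j : Fin (n + 3)} (P : Fin (n + 1 + 3) → Prop) (h0 : P j.succ)
    (h1 : ∀ k : Fin (n + 3), P (j.succ.succAbove k)) : ∀ k, P k := by
  intro k
  rcases Fin.eq_self_or_eq_succAbove (n := n + 3) j.succ k with h | ⟨l, h⟩
  · rw [h]; exact h0
  · rw [h]; exact h1 l

theorem ins_zero : ins q j z 0 = q 0 := by
  have h : (0 : Fin (n + 1 + 3)) = j.succ.succAbove (0 : Fin (n + 3)) := by
    apply Fin.ext
    rw [val_succAbove]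
    simp
  rw [h, ins_old]

theorem ins_prev : ins q j z (j.succ - 1) = q j := by
  have h : (j.succ : Fin (n + 1 + 3)) - 1 = j.succ.succAbove j := by
    rw [sub_eq_iff_eq_add]
    exact (succAbove_self_next j).symm
  rw [h, ins_old]

theorem ins_next : ins q j z (j.succ + 1) = q (j + 1) := by
  rw [succ_next, ins_old]

theorem ins_old_next {k : Fin (n + 3)} (h : k ≠ j) :
    ins q j z (j.succ.succAbove k + 1) = q (k + 1) := by
  rw [succAbove_next j k h, ins_old]

theorem ins_old_next' : ins q j z (j.succ.succAbove j + 1) = z := by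
  rw [succAbove_self_next, ins_self]

theorem ins_old_prev {k : Fin (n + 3)} (h : k ≠ j + 1) :
    ins q j z (j.succ.succAbove k - 1) = q (k - 1) := by
  have h' : k - 1 ≠ j := fun e => h (by rw [← e]; exact (sub_add_cancel _ _).symm)
  have e : (j.succ.succAbove k : Fin (n + 1 + 3)) - 1 = j.succ.succAbove (k - 1) := by
    have e1 := succAbove_next j (k - 1) h'
    rw [sub_add_cancel] at e1
    rw [← e1]
    exact add_sub_cancel_right (j.succ.succAbove (k - 1) : Fin (n + 1 + 3)) 1
  rw [e, ins_old]

theorem ins_old_prev' : ins q j z (j.succ.succAbove (j + 1) - 1) = z := by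
  rw [← succ_next, add_sub_cancel_right, ins_self]

theorem ins_range : Set.range (ins q j z) = insert z (Set.range q) := by
  ext w
  simp only [Set.mem_range, Set.mem_insert_iff]
  constructor
  · rintro ⟨k, hk⟩
    revert hk
    refine ins_cases (j := j) (fun k => ins q j z k = w → w = z ∨ ∃ y, q y = w) ?_ ?_ k
    · intro h; rw [ins_self] at h; exact Or.inl h.symm
    · intro l h; rw [ins_old] at h; exact Or.inr ⟨l, h⟩
  · rintro (h | ⟨k, hk⟩)
    · exact ⟨j.succ, by rw [ins_self, h]⟩
    · exact ⟨j.succ.succAbove k, by rw [ins_old, hk]⟩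

theorem ins_inj (hq : Function.Injective q) (hz : z ∉ Set.range q) :
    Function.Injective (ins q j z) := by
  intro a b
  refine ins_cases (j := j) (fun a => ins q j z a = ins q j z b → a = b) ?_ ?_ a
  · refine ins_cases (j := j) (fun b => ins q j z j.succ = ins q j z b → j.succ = b) ?_ ?_ b
    · intro _; rfl
    · intro l h
      rw [ins_self, ins_old] at h
      exact absurd ⟨l, h.symm⟩ hz
  · intro k
    refine ins_cases (j := j) (fun b => ins q j z (j.succ.succAbove k) = ins q j z b →
      j.succ.succAbove k = b) ?_ ?_ b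
    · intro h
      rw [ins_self, ins_old] at h
      exact absurd ⟨k, h⟩ hz
    · intro l h
      rw [ins_old, ins_old] at h
      rw [hq h]

/-! ### weak convexity -/

/-- twice the oriented area of a triangle -/
def D3 (x y w : ℂ) : ℝ := det (y - x) (w - x)

theorem D3_cyc (x y w : ℂ) : D3 x y w = D3 y w x := by
  unfold D3 det
  simp only [sub_re, sub_im]
  ring

theorem D3_affine (x y u v : ℂ) (t : ℝ) :
    D3 x y ((1 - t) • u + t • v) = (1 - t) * D3 x y u + t * D3 x y v := by
  unfold D3 det
  simp only [sub_re, sub_im, add_re, add_im, real_smul, mul_re, mul_im, ofReal_re, ofReal_im]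
  ring

theorem D3_left (x y : ℂ) : D3 x x y = 0 := by
  unfold D3 det; simp

theorem D3_right (x y : ℂ) : D3 x y y = 0 := by
  unfold D3 det; simp only [sub_re, sub_im]; ring

theorem D3_out (x y : ℂ) : D3 x y x = 0 := by
  unfold D3 det; simp

/-- weak version of weak convexity -/
theorem wc_le {m : ℕ} {q : Fin m → ℂ} (hq : WC q) {a b c : Fin m} (hab : a ≤ b) (hbc : b ≤ c) :
    0 ≤ D3 (q a) (q b) (q c) := by
  rcases hab.eq_or_lt with h | h
  · rw [h, D3_left]
  · rcases hbc.eq_or_lt with h' | h'
    · rw [h', D3_right]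
    · exact hq a b c h h'

theorem ins_wc (hq : WC q) (j : Fin (n + 3)) {t : ℝ} (h0 : 0 ≤ t) (h1 : t ≤ 1) :
    WC (ins q j ((1 - t) • q j + t • q (j + 1))) := by
  have h1' : 0 ≤ 1 - t := by linarith
  -- the three positions of the new vertex
  have hA : ∀ a b : Fin (n + 3), a < b → b ≤ j →
      0 ≤ D3 (q a) (q b) ((1 - t) • q j + t • q (j + 1)) := by
    intro a b hab hb
    rw [D3_affine]
    refine add_nonneg (mul_nonneg h1' (wc_le hq hab.le hb)) (mul_nonneg h0 ?_)
    have hj := j.isLt
    have e := val_add_one' j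
    by_cases hl : (j : ℕ) = n + 2
    · rw [if_pos hl] at e
      have e' : j + 1 = 0 := Fin.ext e
      rw [e', D3_cyc, D3_cyc]
      exact wc_le hq (Fin.zero_le _) hab.le
    · rw [if_neg hl] at e
      refine wc_le hq hab.le ?_
      rw [Fin.le_def] at hb ⊢
      omega
  have hB : ∀ a c : Fin (n + 3), a ≤ j → j < c →
      0 ≤ D3 (q a) ((1 - t) • q j + t • q (j + 1)) (q c) := by
    intro a c ha hc
    have hj := j.isLt
    have hc' := c.isLt
    have e := val_add_one' j
    rw [Fin.lt_def] at hc
    rw [if_neg (by omega)] at e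
    rw [D3_cyc, D3_cyc, D3_affine]
    refine add_nonneg (mul_nonneg h1' ?_) (mul_nonneg h0 ?_)
    · rw [D3_cyc]
      exact wc_le hq ha (by rw [Fin.le_def]; omega)
    · rw [D3_cyc]
      rw [Fin.le_def] at ha
      exact wc_le hq (by rw [Fin.le_def]; omega) (by rw [Fin.le_def]; omega)
  have hC : ∀ b c : Fin (n + 3), j < b → b < c →
      0 ≤ D3 ((1 - t) • q j + t • q (j + 1)) (q b) (q c) := by
    intro b c hb hc
    have hj := j.isLt
    have hc' := b.isLt
    have e := val_add_one' j
    rw [Fin.lt_def] at hb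
    rw [if_neg (by omega)] at e
    rw [D3_cyc, D3_affine]
    refine add_nonneg (mul_nonneg h1' ?_) (mul_nonneg h0 ?_)
    · rw [D3_cyc, D3_cyc]
      exact wc_le hq (by rw [Fin.le_def]; omega) hc.le
    · rw [D3_cyc, D3_cyc]
      exact wc_le hq (by rw [Fin.le_def]; omega) hc.le
  intro a b c
  have key : ∀ z, (∀ a b : Fin (n + 3), a < b → b ≤ j → 0 ≤ D3 (q a) (q b) z) →
      (∀ a c : Fin (n + 3), a ≤ j → j < c → 0 ≤ D3 (q a) z (q c)) →
      (∀ b c : Fin (n + 3), j < b → b < c → 0 ≤ D3 z (q b) (q c)) →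
      a < b → b < c → 0 ≤ D3 (ins q j z a) (ins q j z b) (ins q j z c) := by
    intro z hA hB hC
    have js : ((j.succ : Fin (n + 1 + 3)) : ℕ) = j + 1 := rfl
    refine ins_cases (j := j) (fun a => a < b → b < c →
      0 ≤ D3 (ins q j z a) (ins q j z b) (ins q j z c)) ?_ ?_ a
    · refine ins_cases (j := j) (fun b => j.succ < b → b < c →
        0 ≤ D3 (ins q j z j.succ) (ins q j z b) (ins q j z c)) ?_ ?_ b
      · intro h; exact absurd h (lt_irrefl _)
      · intro b'
        refine ins_cases (j := j) (fun c => j.succ < j.succ.succAbove b' →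
          j.succ.succAbove b' < c →
          0 ≤ D3 (ins q j z j.succ) (ins q j z (j.succ.succAbove b')) (ins q j z c)) ?_ ?_ c
        · intro h h'; exact absurd (h.trans h') (lt_irrefl _)
        · intro c' h h'
          rw [ins_self, ins_old, ins_old]
          refine hC b' c' ?_ (succAbove_lt h')
          rw [Fin.lt_def, val_succAbove, js] at h
          rw [Fin.lt_def]
          split_ifs at h <;> omega
    · intro a'
      refine ins_cases (j := j) (fun b => j.succ.succAbove a' < b → b < c →
        0 ≤ D3 (ins q j z (j.succ.succAbove a')) (ins q j z b) (ins q j z c)) ?_ ?_ b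
      · refine ins_cases (j := j) (fun c => j.succ.succAbove a' < j.succ → j.succ < c →
          0 ≤ D3 (ins q j z (j.succ.succAbove a')) (ins q j z j.succ) (ins q j z c)) ?_ ?_ c
        · intro _ h; exact absurd h (lt_irrefl _)
        · intro c' h h'
          rw [ins_self, ins_old, ins_old]
          rw [Fin.lt_def, val_succAbove, js] at h
          rw [Fin.lt_def, val_succAbove, js] at h'
          refine hB a' c' ?_ ?_
          · rw [Fin.le_def]; split_ifs at h <;> omega
          · rw [Fin.lt_def]; split_ifs at h' <;> omega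
      · intro b'
        refine ins_cases (j := j) (fun c => j.succ.succAbove a' < j.succ.succAbove b' →
          j.succ.succAbove b' < c →
          0 ≤ D3 (ins q j z (j.succ.succAbove a')) (ins q j z (j.succ.succAbove b'))
            (ins q j z c)) ?_ ?_ c
        · intro h h'
          rw [ins_self, ins_old, ins_old]
          refine hA a' b' (succAbove_lt h) ?_
          rw [Fin.lt_def, val_succAbove, js] at h'
          rw [Fin.le_def]
          split_ifs at h' <;> omega
        · intro c' h h'
          rw [ins_old, ins_old, ins_old]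
          exact hq a' b' c' (succAbove_lt h) (succAbove_lt h')
  exact key _ hA hB hC

/-! ### the polygon, area and perimeter -/

theorem ins_poly (j : Fin (n + 3)) {t : ℝ} (h0 : 0 ≤ t) (h1 : t ≤ 1) :
    poly (ins q j ((1 - t) • q j + t • q (j + 1))) = poly q := by
  unfold poly
  congr 1
  rw [ins_range]
  apply Set.Subset.antisymm
  · refine convexHull_min ?_ (convex_convexHull ℝ _)
    rintro x (rfl | hx)
    · exact (convex_convexHull ℝ (Set.range q)) (subset_convexHull ℝ _ ⟨j, rfl⟩)
        (subset_convexHull ℝ _ ⟨j + 1, rfl⟩) (by linarith) h0 (by ring)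
    · exact subset_convexHull ℝ _ hx
  · exact convexHull_mono (Set.subset_insert _ _)

/-- sum of a function of the sides -/
theorem ins_sum (f : ℂ → ℂ → ℝ) :
    ∑ k, f (ins q j z k) (ins q j z (k + 1))
      = ∑ k, f (q k) (q (k + 1)) + (f (q j) z + f z (q (j + 1)) - f (q j) (q (j + 1))) := by
  rw [Fin.sum_univ_succAbove (n := n + 3) _ j.succ, ins_self, ins_next]
  have h : ∀ k : Fin (n + 3), f (ins q j z (j.succ.succAbove k))
      (ins q j z (j.succ.succAbove k + 1))
      = f (q k) (q (k + 1)) + if k = j then f (q j) z - f (q j) (q (j + 1)) else 0 := by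
    intro k
    by_cases hk : k = j
    · rw [if_pos hk, hk, ins_old, ins_old_next']; ring
    · rw [if_neg hk, ins_old, ins_old_next hk]; ring
  rw [Finset.sum_congr rfl fun k _ => h k, Finset.sum_add_distrib, Finset.sum_ite_eq']
  simp only [Finset.mem_univ, if_true]
  ring

theorem ins_area (j : Fin (n + 3)) (t : ℝ) :
    area (ins q j ((1 - t) • q j + t • q (j + 1))) = area q := by
  unfold area
  rw [ins_sum (fun x y => det x y)]
  congr 1
  have : det (q j) ((1 - t) • q j + t • q (j + 1)) + det ((1 - t) • q j + t • q (j + 1))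
      (q (j + 1)) - det (q j) (q (j + 1)) = 0 := by
    unfold det
    simp only [add_re, add_im, real_smul, mul_re, mul_im, ofReal_re, ofReal_im]
    ring
  rw [this, add_zero]

theorem ins_per (j : Fin (n + 3)) {t : ℝ} (h0 : 0 ≤ t) (h1 : t ≤ 1) :
    per (ins q j ((1 - t) • q j + t • q (j + 1))) = per q := by
  unfold per sl
  rw [ins_sum (fun x y => ‖y - x‖)]
  have e1 : (1 - t) • q j + t • q (j + 1) - q j = t • (q (j + 1) - q j) := by
    module
  have e2 : q (j + 1) - ((1 - t) • q j + t • q (j + 1)) = (1 - t) • (q (j + 1) - q j) := by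
    module
  rw [e1, e2, norm_smul, norm_smul, Real.norm_of_nonneg h0, Real.norm_of_nonneg (by linarith)]
  ring

theorem ins_tendsto {q : ℕ → Fin (n + 3) → ℂ} {q0 : Fin (n + 3) → ℂ} {z : ℕ → ℂ} {z0 : ℂ}
    (hq : Tendsto q atTop (𝓝 q0)) (hz : Tendsto z atTop (𝓝 z0)) (j : Fin (n + 3)) :
    Tendsto (fun i => ins (q i) j (z i)) atTop (𝓝 (ins q0 j z0)) := by
  rw [tendsto_pi_nhds] at hq ⊢
  refine ins_cases (j := j) (fun k => Tendsto (fun i => ins (q i) j (z i) k) atTop
    (𝓝 (ins q0 j z0 k))) ?_ ?_
  · simp only [ins_self]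
    exact hz
  · intro k
    simp only [ins_old]
    exact hq k

end Pool.Agent.H5O.H97
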